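import Pool.Agent.Q285.RL.Grow
import Pool.Agent.Y813.RL.Bf

/-!
Project RL (MP_f1d0b6_nt), job RL-ODE1: the differential equation of the theta components.
-/

set_option autoImplicit false

open UpperHalfPlane hiding I
open Real Complex Filter Topology Set Derivative
open scoped Manifold MatrixGroups ModularForm
open Pool.Agent.Y813.RL Pool.Agent.Q248.RL Pool.Agent.Y683.RL

namespace Pool.Agent.Q285.RL

noncomputable section

/-! ### the operator on functions on the half plane -/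

/-- the operator of `Lop` -/
def LL (F : ℍ → ℂ) : ℍ → ℂ :=
  serreDerivative (-8) (serreDerivative (-10) F) +
    (-(1 / 18) : ℂ) • ((fun z => ModularForm.E₄ z) * F)

lemma lop_eq (u : ℂ → ℂ) : Lop u = LL (fun w : ℍ => u (w : ℂ)) := by
  funext z
  simp only [Lop, LL, Pi.add_apply, Pi.smul_apply, Pi.mul_apply, smul_eq_mul]
  ring

lemma LL_mdiff {F : ℍ → ℂ} (hF : MDiff F) : MDiff (LL F) := by
  refine MDifferentiable.add (serreDerivative_mdifferentiable _ (serreDerivative_mdifferentiable _ hF)) ?_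
  exact (MDifferentiable.mul ModularForm.E₄.holo' hF).const_smul _

lemma LL_smul (c : ℂ) {F : ℍ → ℂ} (hF : MDiff F) : LL (c • F) = c • LL F := by
  unfold LL
  rw [serreDerivative_smul _ _ _ hF, serreDerivative_smul _ _ _ (serreDerivative_mdifferentiable _ hF)]
  funext z
  simp only [Pi.add_apply, Pi.smul_apply, Pi.mul_apply, smul_eq_mul]
  ring

lemma LL_add {F G : ℍ → ℂ} (hF : MDiff F) (hG : MDiff G) : LL (F + G) = LL F + LL G := by
  unfold LL
  rw [serreDerivative_add _ _ _ hF hG, serreDerivative_add _ _ _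
    (serreDerivative_mdifferentiable _ hF) (serreDerivative_mdifferentiable _ hG)]
  funext z
  simp only [Pi.add_apply, Pi.smul_apply, Pi.mul_apply, smul_eq_mul]
  ring

lemma LL_zero : LL 0 = 0 := by
  have h : MDiff (0 : ℍ → ℂ) := mdifferentiable_const
  have := LL_smul 0 h
  simpa using this

lemma LL_sum {ι : Type*} (s : Finset ι) (F : ι → ℍ → ℂ) (hF : ∀ i, MDiff (F i)) :
    MDiff (∑ i ∈ s, F i) ∧ LL (∑ i ∈ s, F i) = ∑ i ∈ s, LL (F i) := by
  classical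
  induction s using Finset.induction_on with
  | empty => exact ⟨mdifferentiable_const, LL_zero⟩
  | insert a s ha ih =>
    rw [Finset.sum_insert ha, Finset.sum_insert ha]
    exact ⟨(hF a).add ih.1, by rw [LL_add (hF a) ih.1, ih.2]⟩

lemma LL_slash {F : ℍ → ℂ} (hF : MDiff F) (γ : SL(2, ℤ)) :
    LL (F ∣[(-10 : ℤ)] γ) = (LL F) ∣[(-6 : ℤ)] γ := by
  have h1 := serreDerivative_slash_equivariant (k := -10) hF (γ := γ)
  have h2 := serreDerivative_slash_equivariant (k := -8) (serreDerivative_mdifferentiable (-10) hF)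
    (γ := γ)
  have e1 : (-10 : ℤ) + 2 = -8 := by norm_num
  have e2 : (-8 : ℤ) + 2 = -6 := by norm_num
  rw [e1] at h1
  rw [e2] at h2
  push_cast at h1 h2
  have h3 := ModularForm.mul_slash_SL2 4 (-10) γ (fun z => ModularForm.E₄ z) F
  have e3 : (4 : ℤ) + (-10) = -6 := by norm_num
  rw [e3] at h3
  have h4 : (fun z => ModularForm.E₄ z) ∣[(4 : ℤ)] γ = fun z => ModularForm.E₄ z := by
    have := ModularForm.E₄.slash_action_eq' (γ : GL (Fin 2) ℝ) ⟨γ, rfl⟩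
    exact this
  rw [h4] at h3
  unfold LL
  rw [SlashAction.add_slash, ModularForm.SL_smul_slash, h3, h2, h1]

lemma slash_S {k : ℤ} (F : ℍ → ℂ) (z : ℍ) :
    (F ∣[k] ModularGroup.S) z = F (mk (-z : ℂ)⁻¹ z.im_inv_neg_coe_pos) * (z : ℂ) ^ (-k) := by
  rw [ModularForm.SL_slash_apply, modular_S_smul, ModularGroup.denom_S]

lemma slash_T {k : ℤ} (F : ℍ → ℂ) (z : ℍ) :
    (F ∣[k] ModularGroup.T) z = F ((1 : ℝ) +ᵥ z) := by
  rw [ModularForm.SL_slash_apply, modular_T_smul]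
  have : denom ModularGroup.T z = 1 := by
    rw [ModularGroup.denom_apply]
    simp [ModularGroup.T]
  rw [this, one_zpow, mul_one]

lemma T_law {c : ℂ} {u : ℂ → ℂ} (hu : DifferentiableOn ℂ u {τ | 0 < τ.im})
    (hT : ∀ τ : ℂ, 0 < τ.im → u (τ + 1) = c * u τ) (z : ℍ) :
    Lop u ((1 : ℝ) +ᵥ z) = c * Lop u z := by
  have hm := mdiff_of hu
  rw [lop_eq, ← slash_T (k := -6) (LL (fun w : ℍ => u (w : ℂ))) z, ← LL_slash hm]
  have : ((fun w : ℍ => u (w : ℂ)) ∣[(-10 : ℤ)] ModularGroup.T) = c • (fun w : ℍ => u (w : ℂ)) := by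
    funext w
    rw [slash_T]
    simp only [Pi.smul_apply, smul_eq_mul]
    rw [UpperHalfPlane.coe_vadd, ofReal_one, add_comm]
    exact hT _ w.im_pos
  rw [this, LL_smul c hm]
  rfl

lemma S_law {ι : Type*} (s : Finset ι) (c : ι → ℂ) (d : ℂ) (u : ℂ → ℂ) (v : ι → ℂ → ℂ)
    (hv : ∀ i, DifferentiableOn ℂ (v i) {τ | 0 < τ.im})
    (hS : ∀ τ : ℂ, 0 < τ.im → u τ = τ ^ 10 * d * ∑ i ∈ s, c i * v i (-1 / τ)) (z : ℍ) :
    Lop u z = (z : ℂ) ^ 6 * d * ∑ i ∈ s, c i * Lop (v i) (ofComplex (-1 / (z : ℂ))) := by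
  have hm := fun i => mdiff_of (hv i)
  have hms : ∀ i, MDiff ((fun w : ℍ => v i (w : ℂ)) ∣[(-10 : ℤ)] ModularGroup.S) :=
    fun i => (hm i).slash (-10) _
  have key : (fun w : ℍ => u (w : ℂ)) =
      ∑ i ∈ s, (d * c i) • ((fun w : ℍ => v i (w : ℂ)) ∣[(-10 : ℤ)] ModularGroup.S) := by
    funext w
    rw [hS _ w.im_pos, Finset.sum_apply, Finset.mul_sum]
    refine Finset.sum_congr rfl fun i _ => ?_
    rw [Pi.smul_apply, slash_S, smul_eq_mul]
    have h1 : ((-10 : ℤ)) = -((10 : ℕ) : ℤ) := by norm_num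
    have h2 : (-(w : ℂ))⁻¹ = -1 / (w : ℂ) := by
      rw [inv_neg, neg_div, one_div]
    have h3 : ((mk (-w : ℂ)⁻¹ w.im_inv_neg_coe_pos : ℍ) : ℂ) = -1 / (w : ℂ) := h2
    rw [h1, neg_neg, zpow_natCast, h3]
    ring
  have hms2 : ∀ i, MDiff ((d * c i) • ((fun w : ℍ => v i (w : ℂ)) ∣[(-10 : ℤ)] ModularGroup.S)) :=
    fun i => (hms i).const_smul _
  rw [lop_eq, key, (LL_sum s _ hms2).2, Finset.sum_apply, Finset.mul_sum]
  refine Finset.sum_congr rfl fun i _ => ?_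
  rw [LL_smul _ (hms i), LL_slash (hm i), Pi.smul_apply, slash_S, smul_eq_mul, ← lop_eq]
  have h1 : ((-6 : ℤ)) = -((6 : ℕ) : ℤ) := by norm_num
  have h2 : (-(z : ℂ))⁻¹ = -1 / (z : ℂ) := by
    rw [inv_neg, neg_div, one_div]
  have h3 : (mk (-z : ℂ)⁻¹ z.im_inv_neg_coe_pos : ℍ) = ofComplex (-1 / (z : ℂ)) := by
    rw [← h2, ofComplex_apply_of_im_pos z.im_inv_neg_coe_pos]
  rw [h1, neg_neg, zpow_natCast, h3]
  ring

/-! ### the finite part -/

variable {A : Matrix (Fin 20) (Fin 20) ℤ}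

lemma isUnit_det' (h : PosSymm A) : IsUnit (A.map (Int.cast : ℤ → ℝ)).det := by
  rw [isUnit_iff_ne_zero]
  intro h0
  obtain ⟨x, hx, hx0⟩ := Matrix.exists_mulVec_eq_zero_iff.2 h0
  have h2 := h.pos x hx
  have h3 : bf A x x = ∑ i, x i * ((A.map (Int.cast : ℤ → ℝ)).mulVec x) i := by
    simp only [bf, Matrix.mulVec, dotProduct, Matrix.map_apply, Finset.mul_sum, mul_assoc]
  rw [h3, hx0] at h2
  simp at h2

lemma even_bf' {B : Matrix (Fin 20) (Fin 20) ℤ} (hB : B.IsSymm) (he : ∀ i, Even (B i i))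
    (v : Fin 20 → ℤ) : ∃ N : ℤ, bf B v v = 2 * N := by
  let f : (Fin 20 → ℤ) →+ ZMod 2 :=
    { toFun := fun v => ((bf B v v : ℤ) : ZMod 2)
      map_zero' := by rw [bf_zero_left]; simp
      map_add' := by
        intro x y
        rw [bf_add_left, bf_add_right, bf_add_right, bf_comm hB y x]
        push_cast
        have : (2 : ZMod 2) = 0 := rfl
        linear_combination ((bf B x y : ℤ) : ZMod 2) * this }
  have hf : f = 0 := by
    apply AddMonoidHom.functions_ext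
    intro i n
    have h1 : bf B (Pi.single i n) (Pi.single i n) = n * B i i * n := by
      simp [bf, Pi.single_apply]
    have h2 : ((B i i : ℤ) : ZMod 2) = 0 := by
      have := (he i).two_dvd
      exact (ZMod.intCast_zmod_eq_zero_iff_dvd _ 2).2 (by exact_mod_cast this)
    show ((bf B (Pi.single i n) (Pi.single i n) : ℤ) : ZMod 2) = 0
    rw [h1]
    push_cast
    rw [h2]
    simp
  have := DFunLike.congr_fun hf v
  have h3 : ((bf B v v : ℤ) : ZMod 2) = 0 := this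
  have h4 := (ZMod.intCast_zmod_eq_zero_iff_dvd _ 2).1 h3
  obtain ⟨N, hN⟩ := h4
  exact ⟨N, by exact_mod_cast hN⟩

lemma cast_mulVec (w : Fin 20 → ℤ) : (fun j => ((A.mulVec w j : ℤ) : ℝ)) =
    (A.map (Int.cast : ℤ → ℝ)).mulVec (fun j => (w j : ℝ)) := by
  funext j
  simp [Matrix.mulVec, dotProduct]

lemma bd_right (h : PosSymm A) (μ w : Fin 20 → ℤ) :
    bd A μ (A.mulVec w) = ((∑ i, μ i * w i : ℤ) : ℝ) := by
  unfold bd
  rw [cast_mulVec, Matrix.mulVec_mulVec, Matrix.nonsing_inv_mul _ (isUnit_det' h), Matrix.one_mulVec]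
  push_cast
  rfl

lemma bd_comm' (h : PosSymm A) (μ ν : Fin 20 → ℤ) : bd A μ ν = bd A ν μ := by
  have h1 : Matrix.transpose ((A.map (Int.cast : ℤ → ℝ))⁻¹) = (A.map (Int.cast : ℤ → ℝ))⁻¹ := by
    rw [Matrix.transpose_nonsing_inv]
    congr 1
    ext i j
    simp [h.symm.apply j i]
  change (fun i => (μ i : ℝ)) ⬝ᵥ _ = (fun i => (ν i : ℝ)) ⬝ᵥ _
  rw [Matrix.dotProduct_mulVec, ← Matrix.mulVec_transpose, h1, dotProduct_comm]

lemma bd_add_right' (μ ν ρ : Fin 20 → ℤ) : bd A μ (ν + ρ) = bd A μ ν + bd A μ ρ := by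
  unfold bd
  have : (fun j => (((ν + ρ) j : ℤ) : ℝ)) = (fun j => (ν j : ℝ)) + fun j => (ρ j : ℝ) := by
    funext j
    simp
  rw [this, Matrix.mulVec_add, ← Finset.sum_add_distrib]
  refine Finset.sum_congr rfl fun i _ => ?_
  rw [Pi.add_apply]
  ring

lemma ee_bd_right (h : PosSymm A) (μ ν v : Fin 20 → ℤ) :
    ee (-(bd A μ (ν + A.mulVec v) : ℂ)) = ee (-(bd A μ ν : ℂ)) := by
  rw [bd_add_right', bd_right h]
  push_cast
  rw [neg_add, ee_add]
  have : -(∑ i, (μ i : ℂ) * (v i : ℂ)) = ((-(∑ i, μ i * v i) : ℤ) : ℂ) := by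
    push_cast
    rfl
  rw [this, ee_int, mul_one]

lemma ee_bd_left (h : PosSymm A) (μ ν v : Fin 20 → ℤ) :
    ee (-(bd A (μ + A.mulVec v) ν : ℂ)) = ee (-(bd A μ ν : ℂ)) := by
  rw [bd_comm' h, ee_bd_right h, bd_comm' h]

lemma sum_reps {E : Type*} [AddCommMonoid E] {R R' : Finset (Fin 20 → ℤ)} (hR : IsReps A R)
    (hR' : IsReps A R') (g : (Fin 20 → ℤ) → E) (hg : ∀ μ v, g (μ + A.mulVec v) = g μ) :
    ∑ ρ ∈ R, g ρ = ∑ ρ ∈ R', g ρ := by
  classical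
  choose r hr hru using fun μ => (hR μ)
  choose r' hr' hru' using fun μ => (hR' μ)
  have hneg : ∀ {μ ρ : Fin 20 → ℤ}, (∃ v, μ = ρ + A.mulVec v) → ∃ v, ρ = μ + A.mulVec v := by
    rintro μ ρ ⟨v, rfl⟩
    exact ⟨-v, by rw [Matrix.mulVec_neg]; abel⟩
  refine Finset.sum_bij' (fun μ _ => r' μ) (fun μ _ => r μ) (fun μ _ => (hr' μ).1)
    (fun μ _ => (hr μ).1) (fun μ hμ => ?_) (fun μ hμ => ?_) (fun μ _ => ?_)
  · exact (hru (r' μ) μ ⟨hμ, hneg (hr' μ).2⟩).symm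
  · exact (hru' (r μ) μ ⟨hμ, hneg (hr μ).2⟩).symm
  · obtain ⟨v, hv⟩ := (hr' μ).2
    conv_lhs => rw [hv]
    exact hg _ _

lemma unitary {R : Finset (Fin 20 → ℤ)} (h : PosSymm A) (hR : IsReps A R)
    (hFF : JobFinFour) (a : (Fin 20 → ℤ) → ℂ) (ha : ∀ μ v, a (μ + A.mulVec v) = a μ) :
    ∑ μ ∈ R, ‖∑ ρ ∈ R, ee (-(bd A μ ρ : ℂ)) * a ρ‖ ^ 2 = (A.det : ℝ) * ∑ ρ ∈ R, ‖a ρ‖ ^ 2 := by
  obtain ⟨hdet, R', hR', hcard, hunit⟩ := hFF A h
  have h1 : ∀ μ, ∑ ρ ∈ R, ee (-(bd A μ ρ : ℂ)) * a ρ = ∑ ρ ∈ R', ee (-(bd A μ ρ : ℂ)) * a ρ := by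
    intro μ
    refine sum_reps hR hR' _ fun ν v => ?_
    rw [ee_bd_right h, ha]
  rw [sum_reps hR hR' (fun ρ => ‖a ρ‖ ^ 2) (fun ν v => by rw [ha]), ← hunit a]
  simp only [h1]
  refine sum_reps hR hR' (fun μ => ‖∑ ρ ∈ R', ee (-(bd A μ ρ : ℂ)) * a ρ‖ ^ 2) fun ν v => ?_
  simp only [ee_bd_left h]

lemma lop_congr {u v : ℂ → ℂ} (h : ∀ τ : ℂ, 0 < τ.im → u τ = v τ) (z : ℍ) : Lop u z = Lop v z := by
  rw [lop_eq, lop_eq]
  have : (fun w : ℍ => u (w : ℂ)) = fun w : ℍ => v (w : ℂ) := by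
    funext w
    exact h _ w.im_pos
  rw [this]

/-- **ODE1.** -/
theorem ode1 (hVV : JobVV) (hFF : JobFinFour) : S_ODE1 := by
  classical
  intro G R f hG he hR hf hg1 hg2
  have hdet : 0 < G.det := (hFF G hG).1
  -- periodicity of the operator applied to `f`
  have hper : ∀ (z : ℍ) (μ v : Fin 20 → ℤ), Lop (f (μ + G.mulVec v)) z = Lop (f μ) z :=
    fun z μ v => lop_congr (fun τ hτ => hf.inv μ v τ hτ) z
  -- growth
  have hgr : ∀ μ : Fin 20 → ℤ, ∃ κ C' : ℝ, -(1 / 2) < κ ∧ ∀ z : ℍ, 1 / 2 ≤ z.im →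
      ‖Lop (f μ) z‖ ≤ C' * Real.exp (-(2 * π * κ * z.im)) := by
    intro μ
    by_cases hμ : ∃ v : Fin 20 → ℤ, μ = G.mulVec v
    · obtain ⟨v, hv⟩ := hμ
      obtain ⟨C, hC⟩ := hg1 μ
      obtain ⟨N, hN⟩ := even_bf' hG.symm he v
      refine kill_one (n := N) (C := C) (hf.holo μ) ?_ ?_
      · intro τ hτ
        rw [hf.T μ τ hτ]
        have h1 : bd G μ μ = ((2 * N : ℤ) : ℝ) := by
          rw [hv, bd_right hG]
          norm_cast
          rw [← hN]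
          simp only [bf, Matrix.mulVec, dotProduct, Finset.sum_mul]
          rw [Finset.sum_comm]
          refine Finset.sum_congr rfl fun i _ => Finset.sum_congr rfl fun j _ => ?_
          rw [hG.symm.apply i j]
          push_cast
          ring
        rw [h1]
        congr 3
        push_cast
        ring
      · intro τ hτ
        have := hC τ hτ
        exact this
    · obtain ⟨C, hC⟩ := hg2 μ hμ
      refine kill_two (θ := bd G μ μ / 2) (C := C) (hf.holo μ) ?_ hC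
      intro τ hτ
      rw [hf.T μ τ hτ]
      push_cast
      rfl
  choose κ C' hκ hC' using hgr
  -- a common exponent
  obtain ⟨κ0, hκ0, hκ1⟩ : ∃ κ0 : ℝ, -(1 / 2) < κ0 ∧ ∀ μ ∈ R, κ0 ≤ κ μ := by
    by_cases hne : R.Nonempty
    · obtain ⟨μ0, h0, h1⟩ := R.exists_min_image κ hne
      exact ⟨κ μ0, hκ μ0, h1⟩
    · rw [Finset.not_nonempty_iff_eq_empty] at hne
      refine ⟨0, by norm_num, ?_⟩
      rw [hne]
      simp
  have key := hVV {x // x ∈ R} 6 κ0 (fun τ i => Lop (f i.1) (ofComplex τ)) (by push_cast; linarith)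
    ?_ ?_ ?_ ?_
  · intro μ z
    obtain ⟨ρ, ⟨hρ, v, hv⟩, -⟩ := hR μ
    rw [hv, hper]
    have := key (z : ℂ) z.im_pos ⟨ρ, hρ⟩
    simpa using this
  · refine differentiableOn_pi.2 fun i => ?_
    have h1 := LL_mdiff (mdiff_of (hf.holo i.1))
    rw [← lop_eq, UpperHalfPlane.mdifferentiable_iff] at h1
    exact h1
  · intro τ hτ
    refine Finset.sum_congr rfl fun i _ => ?_
    rw [ofc_add_one τ hτ, T_law (hf.holo i.1) (hf.T i.1), norm_mul, ee_norm]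
    simp
  · intro τ hτ
    have h1 : ∀ μ, Lop (f μ) (ofComplex τ) = τ ^ 6 * (-(1 / (Real.sqrt (G.det : ℝ) : ℂ))) *
        ∑ ρ ∈ R, ee (-(bd G μ ρ : ℂ)) * Lop (f ρ) (ofComplex (-1 / τ)) := by
      intro μ
      have h2 := S_law R (fun ρ => ee (-(bd G μ ρ : ℂ))) (-(1 / (Real.sqrt (G.det : ℝ) : ℂ)))
        (f μ) f hf.holo (fun τ hτ => by
          rw [hf.S μ τ hτ]
          ring) (ofComplex τ)
      have h3 : ((ofComplex τ : ℍ) : ℂ) = τ := by
        rw [ofComplex_apply_of_im_pos hτ]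
      rw [h3] at h2
      exact h2
    have h4 : ∀ z : ℍ, ∑ i : {x // x ∈ R}, ‖Lop (f i.1) z‖ ^ 2 = ∑ μ ∈ R, ‖Lop (f μ) z‖ ^ 2 := by
      intro z
      exact Finset.sum_coe_sort R (fun μ => ‖Lop (f μ) z‖ ^ 2)
    rw [h4, h4]
    have h5 : ∀ μ, ‖Lop (f μ) (ofComplex τ)‖ ^ 2 = ‖τ‖ ^ 12 * (1 / (G.det : ℝ)) *
        ‖∑ ρ ∈ R, ee (-(bd G μ ρ : ℂ)) * Lop (f ρ) (ofComplex (-1 / τ))‖ ^ 2 := by
      intro μ
      rw [h1 μ, norm_mul, norm_mul, norm_neg, norm_div, norm_one, Complex.norm_real, norm_pow]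
      have h6 : (0 : ℝ) < (G.det : ℝ) := by exact_mod_cast hdet
      rw [Real.norm_of_nonneg (Real.sqrt_nonneg _), mul_pow, mul_pow, div_pow,
        Real.sq_sqrt h6.le]
      ring
    simp only [h5]
    rw [← Finset.mul_sum, unitary hG hR hFF (fun ρ => Lop (f ρ) (ofComplex (-1 / τ)))
      (fun μ v => hper _ μ v)]
    have h6 : (G.det : ℝ) ≠ 0 := by exact_mod_cast hdet.ne'
    field_simp
    ring
  · refine ⟨∑ μ ∈ R, |C' μ|, fun τ hτ i => ?_⟩
    have hpos : 0 < τ.im := by linarith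
    have h1 : (ofComplex τ).im = τ.im := by
      rw [ofComplex_apply_of_im_pos hpos]
      rfl
    have h2 := hC' i.1 (ofComplex τ) (by rw [h1]; exact hτ)
    rw [h1] at h2
    refine h2.trans ?_
    have h3 : C' i.1 ≤ ∑ μ ∈ R, |C' μ| :=
      (le_abs_self _).trans (Finset.single_le_sum (f := fun μ => |C' μ|)
        (fun μ _ => abs_nonneg _) i.2)
    have h4 : Real.exp (-(2 * π * κ i.1 * τ.im)) ≤ Real.exp (-(2 * π * κ0 * τ.im)) := by
      apply Real.exp_le_exp.2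
      have h5 := hκ1 i.1 i.2
      have h6 : 2 * π * κ0 * τ.im ≤ 2 * π * κ i.1 * τ.im := by gcongr
      linarith
    have h7 : 0 ≤ ∑ μ ∈ R, |C' μ| := Finset.sum_nonneg fun μ _ => abs_nonneg _
    calc C' i.1 * Real.exp (-(2 * π * κ i.1 * τ.im))
        ≤ (∑ μ ∈ R, |C' μ|) * Real.exp (-(2 * π * κ i.1 * τ.im)) := by gcongr
      _ ≤ _ := by gcongr

end

end Pool.Agent.Q285.RL
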