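import Pool.Agent.Q285.RL.QE

/-!
Project RL (MP_f1d0b6_nt), job RL-ODE1: growth of `Lop u` at the cusp.
-/

set_option autoImplicit false

open UpperHalfPlane hiding I
open Real Complex Filter Topology Set Derivative
open scoped Manifold MatrixGroups ModularForm
open Pool.Agent.Y813.RL Pool.Agent.Q248.RL Pool.Agent.Y683.RL

namespace Pool.Agent.Q285.RL

noncomputable section

lemma qe_exp (e : ℝ) : QE e 1 (fun z : ℍ => ee ((e : ℂ) * (z : ℂ))) :=
  ⟨fun _ => 1, differentiableOn_const _, rfl, fun z => by simp⟩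

lemma mdiff_of {u : ℂ → ℂ} (hol : DifferentiableOn ℂ u {τ | 0 < τ.im}) :
    MDiff (fun z : ℍ => u (z : ℂ)) := by
  rw [UpperHalfPlane.mdifferentiable_iff]
  refine hol.congr fun w hw => ?_
  have hw' : 0 < w.im := hw
  simp only [Function.comp_apply]
  rw [ofComplex_apply_of_im_pos hw']

lemma exists_qe {θ A C : ℝ} {u : ℂ → ℂ} (hol : DifferentiableOn ℂ u {τ | 0 < τ.im})
    (hT : ∀ τ : ℂ, 0 < τ.im → u (τ + 1) = ee (-(θ : ℂ)) * u τ)
    (hg : ∀ τ : ℂ, 1 / 2 ≤ τ.im → ‖u τ‖ ≤ C * Real.exp (2 * π * A * τ.im)) :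
    ∃ (n : ℤ) (a : ℂ), -A ≤ n - θ ∧ QE (n - θ) a (fun z : ℍ => u (z : ℂ)) := by
  set n : ℤ := ⌈θ - A⌉ with hn
  have hn1 : θ - A ≤ n := Int.le_ceil _
  have hn2 : (n : ℝ) < θ - A + 1 := Int.ceil_lt_add_one _
  set e : ℝ := n - θ with he
  -- the auxiliary periodic function
  set v : ℂ → ℂ := fun w => ee (((1 - e : ℝ) : ℂ) * w) * u w with hv
  have hvd : DifferentiableOn ℂ v {τ | 0 < τ.im} := by
    refine DifferentiableOn.mul ?_ hol
    exact (ee_diff.comp (differentiable_id.const_mul _)).differentiableOn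
  have hvm : MDiff (fun z : ℍ => v (z : ℂ)) := mdiff_of hvd
  have hvp : Function.Periodic ((fun z : ℍ => v (z : ℂ)) ∘ ofComplex) 1 := by
    apply per_of
    intro z
    simp only [hv]
    rw [UpperHalfPlane.coe_vadd, ofReal_one, add_comm (1 : ℂ), hT _ z.im_pos, mul_add, ee_add,
      mul_one]
    have h1 : ee (((1 - e : ℝ) : ℂ)) * ee (-(θ : ℂ)) = 1 := by
      rw [← ee_add]
      have : ((1 - e : ℝ) : ℂ) + -(θ : ℂ) = ((1 - n : ℤ) : ℂ) := by
        rw [he]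
        push_cast
        ring
      rw [this, ee_int]
    calc _ = ee (((1 - e : ℝ) : ℂ) * z) * (ee (((1 - e : ℝ) : ℂ)) * ee (-(θ : ℂ))) * u z := by ring
      _ = _ := by rw [h1, mul_one]
  have hvb : ∀ z : ℍ, 1 / 2 ≤ z.im → ‖v (z : ℂ)‖ ≤ C * Real.exp (-(2 * π * (1 - e - A) * z.im)) := by
    intro z hz
    simp only [hv]
    rw [norm_mul, ee_norm]
    have h1 := hg (z : ℂ) hz
    have h2 : (((1 - e : ℝ) : ℂ) * (z : ℂ)).im = (1 - e) * z.im := by
      rw [Complex.im_ofReal_mul]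
      rfl
    rw [h2]
    calc Real.exp (-(2 * π * ((1 - e) * z.im))) * ‖u z‖
        ≤ Real.exp (-(2 * π * ((1 - e) * z.im))) * (C * Real.exp (2 * π * A * (z : ℂ).im)) := by
          gcongr
      _ = C * (Real.exp (-(2 * π * ((1 - e) * z.im))) * Real.exp (2 * π * A * z.im)) := by
          have : (z : ℂ).im = z.im := rfl
          rw [this]
          ring
      _ = _ := by
          rw [← Real.exp_add]
          congr 2
          ring
  have hpos : 0 < 2 * π * (1 - e - A) := by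
    have h1 : 0 < 1 - e - A := by rw [he]; linarith
    positivity
  have hz0 : IsZeroAtImInfty (fun z : ℍ => v (z : ℂ)) := by
    have h1 : Tendsto (fun y : ℝ => C * Real.exp (-(2 * π * (1 - e - A) * y))) atTop (𝓝 0) := by
      have h2 : Tendsto (fun y : ℝ => 2 * π * (1 - e - A) * y) atTop atTop :=
        tendsto_id.const_mul_atTop hpos
      have h3 := (Real.tendsto_exp_neg_atTop_nhds_zero.comp h2).const_mul C
      simpa using h3
    have h4 : Tendsto (fun z : ℍ => C * Real.exp (-(2 * π * (1 - e - A) * z.im))) atImInfty (𝓝 0) :=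
      h1.comp tendsto_comap
    refine squeeze_zero_norm' ?_ h4
    have h5 : ∀ᶠ y : ℝ in atTop, 1 / 2 ≤ y := eventually_ge_atTop _
    have h6 : ∀ᶠ z : ℍ in atImInfty, 1 / 2 ≤ z.im := (tendsto_comap (f := UpperHalfPlane.im)).eventually h5
    filter_upwards [h6] with z hz
    exact hvb z hz
  have hb0 : IsBoundedAtImInfty (fun z : ℍ => v (z : ℂ)) := hz0.isBoundedAtImInfty
  have h7 := qe_of hvp hvm hb0
  rw [hz0.cuspFunction_apply_zero one_pos] at h7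
  obtain ⟨b, hb⟩ := h7.shift
  have h8 := (qe_exp (-(1 - e))).mul hb
  refine ⟨n, 1 * b, by linarith, ?_⟩
  have h9 : -(1 - e) + (0 + 1) = (n : ℝ) - θ := by rw [he]; ring
  rw [h9] at h8
  convert h8 using 1
  funext z
  simp only [hv]
  rw [← mul_assoc, ← ee_add]
  have : ((-(1 - e) : ℝ) : ℂ) * (z : ℂ) + ((1 - e : ℝ) : ℂ) * (z : ℂ) = 0 := by
    push_cast
    ring
  rw [this, ee_zero, one_mul]

/-- the class of zero: integral exponents -/
lemma kill_one {n : ℤ} {C : ℝ} {u : ℂ → ℂ} (hol : DifferentiableOn ℂ u {τ | 0 < τ.im})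
    (hT : ∀ τ : ℂ, 0 < τ.im → u (τ + 1) = ee (-((n : ℝ) : ℂ)) * u τ)
    (hg : ∀ τ : ℂ, 1 / 2 ≤ τ.im → ‖u τ‖ ≤ C * Real.exp (2 * π * τ.im)) :
    ∃ κ C' : ℝ, -(1 / 2) < κ ∧ ∀ z : ℍ, 1 / 2 ≤ z.im →
      ‖Lop u z‖ ≤ C' * Real.exp (-(2 * π * κ * z.im)) := by
  obtain ⟨m, a, hm, hq⟩ := exists_qe (A := 1) hol hT (by simpa using hg)
  have hl := hq.lop
  by_cases h1 : m - n = -1
  · have h2 : (m : ℝ) - n = -1 := by exact_mod_cast h1
    rw [h2] at hl
    have h3 : (((-1 : ℝ) : ℂ) + 1) * (((-1 : ℝ) : ℂ) + 1 / 2) * a = 0 := by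
      push_cast
      ring
    rw [h3] at hl
    obtain ⟨b, hb⟩ := hl.shift
    obtain ⟨C', hC'⟩ := hb.bound
    exact ⟨-1 + 1, C', by norm_num, hC'⟩
  · obtain ⟨C', hC'⟩ := hl.bound
    refine ⟨_, C', ?_, hC'⟩
    have h2 : (-1 : ℝ) ≤ ((m - n : ℤ) : ℝ) := by push_cast; exact hm
    have h3 : (-1 : ℤ) ≤ m - n := by exact_mod_cast h2
    have h4 : (0 : ℤ) ≤ m - n := by omega
    have h5 : (0 : ℝ) ≤ ((m - n : ℤ) : ℝ) := by exact_mod_cast h4
    push_cast at h5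
    linarith

/-- the other classes -/
lemma kill_two {θ C : ℝ} {u : ℂ → ℂ} (hol : DifferentiableOn ℂ u {τ | 0 < τ.im})
    (hT : ∀ τ : ℂ, 0 < τ.im → u (τ + 1) = ee (-(θ : ℂ)) * u τ)
    (hg : ∀ τ : ℂ, 1 / 2 ≤ τ.im → ‖u τ‖ ≤ C * Real.exp (π * τ.im)) :
    ∃ κ C' : ℝ, -(1 / 2) < κ ∧ ∀ z : ℍ, 1 / 2 ≤ z.im →
      ‖Lop u z‖ ≤ C' * Real.exp (-(2 * π * κ * z.im)) := by
  obtain ⟨m, a, hm, hq⟩ := exists_qe (A := 1 / 2) (C := C) hol hT (by
    intro τ hτ
    have := hg τ hτ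
    have h1 : 2 * π * (1 / 2) * τ.im = π * τ.im := by ring
    rw [h1]
    exact this)
  have hl := hq.lop
  by_cases h1 : (m : ℝ) - θ = -(1 / 2)
  · rw [h1] at hl
    have h3 : (((-(1 / 2) : ℝ) : ℂ) + 1) * (((-(1 / 2) : ℝ) : ℂ) + 1 / 2) * a = 0 := by
      push_cast
      ring
    rw [h3] at hl
    obtain ⟨b, hb⟩ := hl.shift
    obtain ⟨C', hC'⟩ := hb.bound
    exact ⟨-(1 / 2) + 1, C', by norm_num, hC'⟩
  · obtain ⟨C', hC'⟩ := hl.bound
    exact ⟨_, C', lt_of_le_of_ne hm (Ne.symm h1), hC'⟩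

end

end Pool.Agent.Q285.RL
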