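import Pool.Agent.Q248.RL.Stm2
import Pool.Agent.Y683.RL.Fou

/-!
Project RL (MP_f1d0b6_nt), job RL-ODE1: expansions at the cusp and the operator `Lop`.
-/

set_option autoImplicit false

open UpperHalfPlane hiding I
open Real Complex Filter Topology Set Derivative
open scoped Manifold MatrixGroups ModularForm
open Pool.Agent.Y813.RL Pool.Agent.Q248.RL Pool.Agent.Y683.RL

namespace Pool.Agent.Q285.RL

noncomputable section

/-- `F z = e(e z) h(q)` with `h` holomorphic on the unit disc, `h 0 = a` -/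
def QE (e : ℝ) (a : ℂ) (F : ℍ → ℂ) : Prop :=
  ∃ h : ℂ → ℂ, DifferentiableOn ℂ h (Metric.ball 0 1) ∧ h 0 = a ∧
    ∀ z : ℍ, F z = ee ((e : ℂ) * (z : ℂ)) * h (ee (z : ℂ))

lemma norm_ee_lt {t : ℂ} (ht : 0 < t.im) : ‖ee t‖ < 1 := by
  rw [ee_norm, Real.exp_lt_one_iff]
  have := Real.pi_pos
  nlinarith [mul_pos this ht]

lemma ee_mem {t : ℂ} (ht : 0 < t.im) : ee t ∈ Metric.ball (0 : ℂ) 1 := by
  rw [mem_ball_zero_iff]
  exact norm_ee_lt ht

lemma qparam_eq (t : ℂ) : Function.Periodic.qParam 1 t = ee t := by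
  simp [Function.Periodic.qParam, ee]

lemma ee_hasDeriv (t : ℂ) : HasDerivAt ee (2 * π * I * ee t) t := by
  have h : HasDerivAt (fun x : ℂ => Complex.exp (2 * π * I * x))
      (Complex.exp (2 * π * I * t) * (2 * π * I * 1)) t :=
    ((hasDerivAt_id t).const_mul (2 * (π : ℂ) * I)).cexp
  have h2 : ee = fun x : ℂ => Complex.exp (2 * π * I * x) := rfl
  rw [h2]
  convert h using 1
  ring

lemma QE.dd {e : ℝ} {a : ℂ} {F : ℍ → ℂ} (hF : QE e a F) :
    QE e (e * a) (normalizedDerivOfComplex F) := by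
  obtain ⟨h, hd, h0, hFz⟩ := hF
  have hdd : DifferentiableOn ℂ (deriv h) (Metric.ball 0 1) := hd.deriv Metric.isOpen_ball
  refine ⟨fun q => e * h q + q * deriv h q, ?_, by simp [h0], fun z => ?_⟩
  · exact (hd.const_mul _).add (differentiableOn_id.mul hdd)
  · unfold normalizedDerivOfComplex
    have hz := z.im_pos
    have he : (F ∘ ofComplex) =ᶠ[𝓝 (z : ℂ)] fun w => ee ((e : ℂ) * w) * h (ee w) := by
      filter_upwards [isOpen_upperHalfPlaneSet.mem_nhds hz] with w hw
      have hw' : 0 < w.im := hw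
      rw [Function.comp_apply, ofComplex_apply_of_im_pos hw']
      exact hFz ⟨w, hw'⟩
    have h1 : HasDerivAt (fun w : ℂ => ee ((e : ℂ) * w)) (2 * π * I * ee ((e : ℂ) * z) * (e * 1)) (z : ℂ) :=
      (ee_hasDeriv ((e : ℂ) * z)).comp (z : ℂ) ((hasDerivAt_id (z : ℂ)).const_mul (e : ℂ))
    have h2 : HasDerivAt (fun w : ℂ => h (ee w)) (deriv h (ee z) * (2 * π * I * ee z)) (z : ℂ) := by
      have h3 : HasDerivAt h (deriv h (ee z)) (ee (z : ℂ)) :=
        (hd.differentiableAt (Metric.isOpen_ball.mem_nhds (ee_mem hz))).hasDerivAt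
      exact h3.comp (z : ℂ) (ee_hasDeriv (z : ℂ))
    rw [((h1.mul h2).congr_of_eventuallyEq he).deriv]
    have hpi : (2 * (π : ℂ) * I) ≠ 0 := Complex.two_pi_I_ne_zero
    field_simp

lemma QE.mul {e e' : ℝ} {a b : ℂ} {F G : ℍ → ℂ} (hF : QE e a F) (hG : QE e' b G) :
    QE (e + e') (a * b) (fun z => F z * G z) := by
  obtain ⟨h, hd, h0, hFz⟩ := hF
  obtain ⟨g, gd, g0, hGz⟩ := hG
  refine ⟨fun q => h q * g q, hd.mul gd, by simp [h0, g0], fun z => ?_⟩
  beta_reduce
  rw [hFz, hGz]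
  push_cast
  rw [add_mul, ee_add]
  ring

lemma QE.add {e : ℝ} {a b : ℂ} {F G : ℍ → ℂ} (hF : QE e a F) (hG : QE e b G) :
    QE e (a + b) (fun z => F z + G z) := by
  obtain ⟨h, hd, h0, hFz⟩ := hF
  obtain ⟨g, gd, g0, hGz⟩ := hG
  refine ⟨fun q => h q + g q, hd.add gd, by simp [h0, g0], fun z => ?_⟩
  beta_reduce
  rw [hFz, hGz]
  ring

lemma QE.smul {e : ℝ} {a : ℂ} {F : ℍ → ℂ} (c : ℂ) (hF : QE e a F) :
    QE e (c * a) (fun z => c * F z) := by
  obtain ⟨h, hd, h0, hFz⟩ := hF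
  refine ⟨fun q => c * h q, hd.const_mul c, by simp [h0], fun z => ?_⟩
  beta_reduce
  rw [hFz]
  ring

lemma qe_of {F : ℍ → ℂ} (hper : Function.Periodic (F ∘ ofComplex) 1)
    (hhol : MDiff F) (hb : IsBoundedAtImInfty F) : QE 0 (cuspFunction 1 F 0) F := by
  refine ⟨cuspFunction 1 F, differentiableOn_cuspFunction_ball one_pos hper hhol hb, rfl, fun z => ?_⟩
  have := eq_cuspFunction (h := 1) z one_ne_zero (by simpa using hper)
  rw [← this, qparam_eq]
  simp [ee_zero]

lemma ofc_add_one (w : ℂ) (hw : 0 < w.im) :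
    ofComplex (w + 1) = (1 : ℝ) +ᵥ (ofComplex w) := by
  have hw2 : 0 < (w + 1).im := by simpa using hw
  rw [ofComplex_apply_of_im_pos hw, ofComplex_apply_of_im_pos hw2]
  ext1
  simp [UpperHalfPlane.coe_vadd, add_comm]

lemma per_of {F : ℍ → ℂ} (h : ∀ z : ℍ, F ((1 : ℝ) +ᵥ z) = F z) :
    Function.Periodic (F ∘ ofComplex) 1 := by
  intro w
  by_cases hw : 0 < w.im
  · simp only [Function.comp_apply]
    rw [ofc_add_one w hw, h]
  · have hw2 : (w + 1).im ≤ 0 := by simpa using hw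
    have hw3 : w.im ≤ 0 := by simpa using hw
    have e1 := ofComplex_apply_of_im_nonpos hw3
    have e2 := ofComplex_apply_of_im_nonpos hw2
    exact congrArg F (e2.trans e1.symm)

lemma qe_E4 : QE 0 1 (fun z => ModularForm.E₄ z) := by
  have hper : Function.Periodic ((fun z : ℍ => ModularForm.E₄ z) ∘ ofComplex) 1 := by
    have := SlashInvariantFormClass.periodic_comp_ofComplex (h := 1) ModularForm.E₄
      one_mem_strictPeriods_SL
    simpa using this
  have h := qe_of hper (ModularForm.E₄.holo') (ModularFormClass.bdd_at_infty _)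
  have h1 : (qExpansion 1 ModularForm.E₄).coeff 0 = 1 :=
    EisensteinSeries.E_qExpansion_coeff_zero (by norm_num) (by decide)
  rw [qExpansion_coeff] at h1
  simp only [Nat.factorial_zero, Nat.cast_one, inv_one, iteratedDeriv_zero, one_mul] at h1
  convert h using 1
  exact h1.symm

lemma per_E2 : Function.Periodic (EisensteinSeries.E2 ∘ ofComplex) 1 := by
  apply per_of
  intro z
  rw [EisensteinSeries.E2_eq_tsum_cexp, EisensteinSeries.E2_eq_tsum_cexp]
  have : ∀ t : ℂ, cexp (2 * π * I * (t + 1)) = cexp (2 * π * I * t) := by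
    intro t
    rw [mul_add, mul_one, Complex.exp_add, Complex.exp_two_pi_mul_I, mul_one]
  congr 2
  refine tsum_congr fun n => ?_
  congr 2
  rw [UpperHalfPlane.coe_vadd, ofReal_one, add_comm, this]

lemma qe_E2 : QE 0 1 EisensteinSeries.E2 := by
  have h := qe_of per_E2 E2_mdifferentiable EisensteinSeries.isBoundedAtImInfty_E2
  have hs : ∀ τ : ℍ, HasSum (fun m : ℕ ↦ (if m = 0 then 1 else -24 * ArithmeticFunction.sigma 1 m : ℂ) •
      Function.Periodic.qParam 1 τ ^ m) (EisensteinSeries.E2 τ) := by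
    intro τ
    simpa only [Function.Periodic.qParam, ofReal_one, div_one] using
      EisensteinSeries.hasSum_qExpansion_E2 (z := τ)
  have han := analyticAt_cuspFunction_zero one_pos (f := EisensteinSeries.E2)
    (by simpa using per_E2) E2_mdifferentiable EisensteinSeries.isBoundedAtImInfty_E2
  have h1 := (hasFPowerSeriesOnBall_cuspFunction one_pos han hs).coeff_zero ![]
  simp [FormalMultilinearSeries.ofScalars] at h1
  rw [← h1] at h
  exact h

lemma QE.serre {e : ℝ} {a : ℂ} {F : ℍ → ℂ} (k : ℂ) (hF : QE e a F) :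
    QE e ((e - k / 12) * a) (serreDerivative k F) := by
  have h1 := hF.dd
  have h2 := (qe_E2.mul hF).smul (-(k * 12⁻¹))
  rw [zero_add] at h2
  have h3 := h1.add h2
  convert h3 using 1
  · ring
  · funext z
    rw [serreDerivative_apply]
    ring

lemma QE.lop {e : ℝ} {a : ℂ} {u : ℂ → ℂ} (hF : QE e a (fun w : ℍ => u (w : ℂ))) :
    QE e ((e + 1) * (e + 1 / 2) * a) (Lop u) := by
  have h1 := (hF.serre (-10)).serre (-8)
  have h2 := (qe_E4.mul hF).smul (-(1 / 18))
  rw [zero_add] at h2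
  have h3 := h1.add h2
  convert h3 using 1
  · ring
  · funext z
    unfold Lop
    ring

lemma QE.shift {e : ℝ} {F : ℍ → ℂ} (hF : QE e 0 F) : ∃ b : ℂ, QE (e + 1) b F := by
  obtain ⟨h, hd, h0, hFz⟩ := hF
  refine ⟨_, dslope h 0, ?_, rfl, fun z => ?_⟩
  · exact (Complex.differentiableOn_dslope (Metric.ball_mem_nhds 0 one_pos)).2 hd
  · rw [hFz]
    have h1 := sub_smul_dslope h 0 (ee (z : ℂ))
    rw [sub_zero, h0, sub_zero, smul_eq_mul] at h1
    rw [← h1]
    push_cast
    rw [add_mul, one_mul, ee_add]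
    ring

lemma QE.bound {e : ℝ} {a : ℂ} {F : ℍ → ℂ} (hF : QE e a F) :
    ∃ C : ℝ, ∀ z : ℍ, 1 / 2 ≤ z.im → ‖F z‖ ≤ C * Real.exp (-(2 * π * e * z.im)) := by
  obtain ⟨h, hd, h0, hFz⟩ := hF
  have hcomp : IsCompact (Metric.closedBall (0 : ℂ) (Real.exp (-π))) := isCompact_closedBall _ _
  have hlt : Real.exp (-π) < 1 := by
    rw [Real.exp_lt_one_iff]
    linarith [Real.pi_pos]
  have hcont : ContinuousOn h (Metric.closedBall (0 : ℂ) (Real.exp (-π))) :=
    hd.continuousOn.mono (Metric.closedBall_subset_ball hlt)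
  obtain ⟨C, hC⟩ := hcomp.exists_bound_of_continuousOn hcont
  refine ⟨C, fun z hz => ?_⟩
  rw [hFz, norm_mul, ee_norm]
  have h1 : ee (z : ℂ) ∈ Metric.closedBall (0 : ℂ) (Real.exp (-π)) := by
    rw [mem_closedBall_zero_iff, ee_norm, Real.exp_le_exp]
    have := Real.pi_pos
    have h2 : (z : ℂ).im = z.im := rfl
    rw [h2]
    nlinarith
  have h3 : ((e : ℂ) * (z : ℂ)).im = e * z.im := by simp
  rw [h3, mul_comm]
  have h4 := hC _ h1
  have h5 : -(2 * π * (e * z.im)) = -(2 * π * e * z.im) := by ring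
  rw [h5]
  gcongr

end

end Pool.Agent.Q285.RL
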